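import Pool.Agent.H73.SMD.Stmts

/-!
# Board SMD, row HFI: the Hartogs figure at the touching point
-/

set_option autoImplicit false

open Set Filter Topology MeasureTheory Metric

namespace Pool.SMD

open Pool.PHS Pool.LPC

private theorem hfi_re (φ : ℂ → ℂ) (ε : ℝ) (u w : ℂ) :
    ((ε : ℂ) * (φ u - 88 * (1 + w))).re = ε * ((φ u).re - 88 * (1 + w.re)) := by
  simp [Complex.mul_re]

private theorem hfi_norm (φ : ℂ → ℂ) (ε : ℝ) (hε : 0 < ε) (u w : ℂ) (h : ‖φ u‖ ≤ 22) :
    ‖(ε : ℂ) * (φ u - 88 * (1 + w))‖ ≤ ε * (22 + 88 * ‖1 + w‖) := by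
  rw [norm_mul, Complex.norm_real, Real.norm_eq_abs, abs_of_pos hε]
  apply mul_le_mul_of_nonneg_left _ hε.le
  calc ‖φ u - 88 * (1 + w)‖ ≤ ‖φ u‖ + ‖88 * (1 + w)‖ := norm_sub_le _ _
    _ ≤ 22 + 88 * ‖1 + w‖ := by
        rw [norm_mul]
        have : ‖(88 : ℂ)‖ = 88 := by simp
        rw [this]
        linarith

theorem HFI_thm (h1 : CNEStmt) : HFIStmt := by
  intro r x ν ψ φ hr hν hφ hψ hψ0 hle hsec
  obtain ⟨κ, hκ, hcone, -⟩ := h1 r x ν hr hν (1 / 300) (by norm_num)
  -- the choice of ρ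
  have hcψ : ContinuousAt ψ 0 :=
    (hψ.differentiableAt (ball_mem_nhds 0 (by norm_num))).continuousAt
  obtain ⟨η, hη, hη2⟩ := Metric.continuousAt_iff.mp hcψ (κ / 2) (by positivity)
  set ρ : ℝ := min 1 (η / 2) with hρdef
  have hρ : 0 < ρ := lt_min one_pos (by positivity)
  have hρ1 : ρ ≤ 1 := min_le_left _ _
  have hρ2 : ρ ≤ η / 2 := min_le_right _ _
  have hnρ : ∀ u : ℂ, ‖(ρ : ℂ) * u‖ = ρ * ‖u‖ := by
    intro u
    rw [norm_mul, Complex.norm_real, Real.norm_eq_abs, abs_of_pos hρ]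
  have hnear : ∀ u : ℂ, ‖u‖ ≤ 3 / 2 → ‖ψ ((ρ : ℂ) * u) - x‖ ≤ κ / 2 := by
    intro u hu
    have h2 : dist ((ρ : ℂ) * u) 0 < η := by
      rw [dist_zero_right, hnρ]
      nlinarith [norm_nonneg u]
    have h3 := hη2 h2
    rw [hψ0, dist_eq_norm] at h3
    exact h3.le
  have hball : ∀ u : ℂ, ‖u‖ ≤ 3 / 2 → (ρ : ℂ) * u ∈ ball (0 : ℂ) 2 := by
    intro u hu
    rw [mem_ball_zero_iff, hnρ]
    nlinarith [norm_nonneg u]
  -- the compact set
  have hopen : IsOpen {z : Cn 2 | r z < 0} := isOpen_lt hr.continuous continuous_const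
  have hTc : IsCompact {u : ℂ | ‖u‖ ≤ 3 / 2 ∧ 1 / 2 ≤ ‖u‖ ∧ 2 * ‖u‖ ≤ 3 * u.re} := by
    apply IsCompact.of_isClosed_subset (isCompact_closedBall (0 : ℂ) (3 / 2))
    · apply IsClosed.inter
      · exact isClosed_le continuous_norm continuous_const
      · apply IsClosed.inter
        · exact isClosed_le continuous_const continuous_norm
        · exact isClosed_le (continuous_const.mul continuous_norm)
            (continuous_const.mul Complex.continuous_re)
    · intro u hu
      rw [mem_closedBall_zero_iff]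
      exact hu.1
  have hcont : ContinuousOn (fun u : ℂ => ψ ((ρ : ℂ) * u)) {u : ℂ | ‖u‖ ≤ 3 / 2 ∧ 1 / 2 ≤ ‖u‖ ∧
      2 * ‖u‖ ≤ 3 * u.re} := by
    apply hψ.continuousOn.comp (continuous_const.mul continuous_id).continuousOn
    intro u hu
    exact hball u hu.1
  have hKc := hTc.image_of_continuousOn hcont
  have hKs : (fun u : ℂ => ψ ((ρ : ℂ) * u)) '' {u : ℂ | ‖u‖ ≤ 3 / 2 ∧ 1 / 2 ≤ ‖u‖ ∧
      2 * ‖u‖ ≤ 3 * u.re} ⊆ {z : Cn 2 | r z < 0} := by
    rintro _ ⟨u, ⟨hu1, hu2, hu3⟩, rfl⟩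
    apply hsec _ (hball u hu1)
    rw [hnρ, Complex.re_ofReal_mul]
    nlinarith
  obtain ⟨ε₀, hε₀, hε₀2⟩ := hKc.exists_thickening_subset_open hopen hKs
  -- the choice of ε
  set N : ℝ := 1 + ‖ν‖ with hN
  have hN1 : 1 ≤ N := by
    have := norm_nonneg ν
    linarith
  set ε : ℝ := min κ ε₀ / (400 * N) with hεdef
  have hmin : 0 < min κ ε₀ := lt_min hκ hε₀
  have hε : 0 < ε := by positivity
  have hεN : 400 * (ε * N) = min κ ε₀ := by
    rw [hεdef]
    field_simp
  have hεle : ε ≤ ε * N := le_mul_of_one_le_right hε.le hN1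
  have hε1 : 400 * ε ≤ κ := by
    have := min_le_left κ ε₀
    linarith
  have hε2 : 200 * (ε * ‖ν‖) ≤ κ / 2 := by
    have := min_le_left κ ε₀
    have h2 : ε * N = ε + ε * ‖ν‖ := by rw [hN]; ring
    linarith
  have hε3 : 200 * (ε * ‖ν‖) < ε₀ := by
    have := min_le_right κ ε₀
    have h2 : ε * N = ε + ε * ‖ν‖ := by rw [hN]; ring
    have h3 : 0 ≤ ε * ‖ν‖ := by positivity
    linarith
  -- general bounds
  have hPhi : ∀ u w : ℂ, Phi ψ φ ν ρ ε (u, w) =
      ψ ((ρ : ℂ) * u) + ((ε : ℂ) * (φ u - 88 * (1 + w))) • ν := fun u w => rfl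
  have hφb : ∀ u : ℂ, ‖u‖ < 1 + 1 / 2000 → ‖φ u‖ ≤ 22 := by
    intro u hu
    apply hφ.bd
    rw [mem_ball_zero_iff]
    linarith
  have hcb : ∀ u w : ℂ, ‖u‖ < 1 + 1 / 2000 → ‖w‖ < 1 + 1 / 2000 →
      ‖(ε : ℂ) * (φ u - 88 * (1 + w))‖ ≤ 200 * ε := by
    intro u w hu hw
    have h2 := hfi_norm φ ε hε u w (hφb u hu)
    have h3 : ‖1 + w‖ ≤ 1 + ‖w‖ := by
      have := norm_add_le (1 : ℂ) w
      rwa [norm_one] at this
    have h4 : ε * (22 + 88 * ‖1 + w‖) ≤ ε * 200 := by
      apply mul_le_mul_of_nonneg_left _ hε.le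
      linarith
    linarith
  have hyx : ∀ u w : ℂ, ‖u‖ < 1 + 1 / 2000 → ‖w‖ < 1 + 1 / 2000 →
      ‖Phi ψ φ ν ρ ε (u, w) - x‖ ≤ κ := by
    intro u w hu hw
    rw [hPhi]
    have h2 := hnear u (by linarith)
    have h3 : ‖((ε : ℂ) * (φ u - 88 * (1 + w))) • ν‖ ≤ κ / 2 := by
      rw [norm_smul]
      have := mul_le_mul_of_nonneg_right (hcb u w hu hw) (norm_nonneg ν)
      linarith
    have h4 : ψ ((ρ : ℂ) * u) + ((ε : ℂ) * (φ u - 88 * (1 + w))) • ν - x =
        (ψ ((ρ : ℂ) * u) - x) + ((ε : ℂ) * (φ u - 88 * (1 + w))) • ν := by abel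
    rw [h4]
    have h5 := norm_add_le (ψ ((ρ : ℂ) * u) - x) (((ε : ℂ) * (φ u - 88 * (1 + w))) • ν)
    linarith
  -- the cone argument at ψ
  have hgood : ∀ u w : ℂ, ‖u‖ < 1 + 1 / 2000 → ‖w‖ < 1 + 1 / 2000 →
      ((ε : ℂ) * (φ u - 88 * (1 + w))).re < 0 →
      ((ε : ℂ) * (φ u - 88 * (1 + w))).re ≤ -(1 / 300 * ‖(ε : ℂ) * (φ u - 88 * (1 + w))‖) →
      r (Phi ψ φ ν ρ ε (u, w)) < 0 := by
    intro u w hu hw h2 h3
    rw [hPhi]
    apply hcone _ _ _ _ _ _ h3
    · have := hnear u (by linarith)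
      linarith
    · have := hcb u w hu hw
      linarith
    · exact hle _ (hball u (by linarith))
    · intro h0
      rw [h0, Complex.zero_re] at h2
      exact lt_irrefl _ h2
  refine ⟨ρ, ε, hρ, hρ1, hε, ?_, ?_, ?_, ?_⟩
  · -- holomorphic
    unfold Phi
    apply DifferentiableOn.add
    · apply hψ.comp ((differentiable_const _).mul differentiable_fst).differentiableOn
      intro p hp
      apply hball
      have := hp.1
      linarith
    · apply DifferentiableOn.smul_const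
      apply DifferentiableOn.mul (differentiableOn_const _)
      apply DifferentiableOn.sub
      · apply hφ.hol.comp differentiable_fst.differentiableOn
        intro p hp
        rw [mem_ball_zero_iff]
        have := hp.1
        linarith
      · exact ((differentiable_const _).mul
          ((differentiable_const _).add differentiable_snd)).differentiableOn
  · -- the figure
    rintro ⟨u, w⟩ ⟨hu, hw, hcase⟩
    simp only at hu hw hcase
    show r (Phi ψ φ ν ρ ε (u, w)) < 0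
    have hre := hfi_re φ ε u w
    have hno := hfi_norm φ ε hε u w (hφb u hu)
    rcases hcase with hw2 | hu2
    · have h2 : (φ u).re ≤ 22 := (Complex.re_le_norm _).trans (hφb u hu)
      have h3 : -‖w‖ ≤ w.re := by
        have := Complex.abs_re_le_norm w
        have := neg_abs_le w.re
        linarith
      have h4 : ‖1 + w‖ ≤ 1 + ‖w‖ := by
        have := norm_add_le (1 : ℂ) w
        rwa [norm_one] at this
      have h5 : ε * ((φ u).re - 88 * (1 + w.re)) ≤ ε * (-65) := by
        apply mul_le_mul_of_nonneg_left _ hε.le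
        linarith
      have h6 : ε * (22 + 88 * ‖1 + w‖) ≤ ε * 200 := by
        apply mul_le_mul_of_nonneg_left _ hε.le
        linarith
      apply hgood u w hu hw
      · rw [hre]
        linarith
      · rw [hre]
        linarith
    · by_cases hs : 2 * ‖u‖ ≤ 3 * u.re
      · -- the compact sector
        rw [hPhi]
        apply hε₀2
        rw [Metric.mem_thickening_iff]
        refine ⟨ψ ((ρ : ℂ) * u), ⟨u, ⟨by linarith, by linarith, hs⟩, rfl⟩, ?_⟩
        rw [dist_eq_norm, add_sub_cancel_left, norm_smul]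
        have := mul_le_mul_of_nonneg_right (hcb u w hu hw) (norm_nonneg ν)
        linarith
      · push Not at hs
        have h2 : (φ u).re ≤ -(1 / 8) := hφ.neg u (by linarith) (by linarith) hs.le
        have h3 : ‖w‖ ^ 2 = w.re ^ 2 + w.im ^ 2 := by
          rw [Complex.sq_norm, Complex.normSq_apply]
          ring
        have h4 : ‖w‖ ^ 2 < (1 + 1 / 2000) ^ 2 := by
          apply pow_lt_pow_left₀ hw (norm_nonneg _)
          norm_num
        have h5 : ‖1 + w‖ ≤ |1 + w.re| + |w.im| := by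
          have := Complex.norm_le_abs_re_add_abs_im (1 + w)
          simpa using this
        have h6 : -(1 + 1 / 2000) < w.re := by
          have h7 := Complex.abs_re_le_norm w
          have h8 := neg_abs_le w.re
          linarith
        have h7 : |1 + w.re| ≤ (1 + w.re + 1 / 2000) + 1 / 2000 := by
          rw [abs_le]
          constructor <;> linarith
        have h8 : |w.im| ^ 2 ≤ 2.001 * (1 + w.re + 1 / 2000) := by
          rw [sq_abs]
          nlinarith
        set X : ℝ := 1 + w.re + 1 / 2000 with hX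
        have hX0 : 0 < X := by linarith
        have h9 : 88 * |w.im| ≤ 1600 * |w.im| ^ 2 + 1.21 := by
          nlinarith [sq_nonneg (40 * |w.im| - 1.1)]
        have h10 : (φ u).re - 88 * (1 + w.re) ≤ -(0.081 + 88 * X) := by
          rw [hX]
          linarith
        have h11 : 22 + 88 * ‖1 + w‖ ≤ 300 * (0.081 + 88 * X) := by
          linarith
        have h12 : ε * ((φ u).re - 88 * (1 + w.re)) ≤ ε * (-(0.081 + 88 * X)) :=
          mul_le_mul_of_nonneg_left h10 hε.le
        have h13 : ε * (22 + 88 * ‖1 + w‖) ≤ ε * (300 * (0.081 + 88 * X)) :=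
          mul_le_mul_of_nonneg_left h11 hε.le
        have h14 : 0 < ε * (0.081 + 88 * X) := by positivity
        apply hgood u w hu hw
        · rw [hre]
          linarith
        · rw [hre]
          linarith
  · -- star-shaped
    rintro ⟨u, w⟩ ⟨hu, hw⟩ hneg τ hτ0 hτ1
    simp only at hu hw
    show r (Phi ψ φ ν ρ ε (u, (τ : ℂ) * w)) < 0
    have hτw : ‖(τ : ℂ) * w‖ ≤ ‖w‖ := by
      rw [norm_mul, Complex.norm_real, Real.norm_eq_abs, abs_of_nonneg hτ0]
      exact mul_le_of_le_one_left (norm_nonneg _) hτ1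
    by_cases hc : w.re ≤ -(1 / 300 * ‖w‖)
    · by_cases h0 : ((88 * ε * (1 - τ) : ℝ) : ℂ) * w = 0
      · have h2 : (ε : ℂ) * (φ u - 88 * (1 + (τ : ℂ) * w)) =
            (ε : ℂ) * (φ u - 88 * (1 + w)) + ((88 * ε * (1 - τ) : ℝ) : ℂ) * w := by
          push_cast
          ring
        rw [hPhi, h2, h0, add_zero, ← hPhi]
        exact hneg
      · have h2 : Phi ψ φ ν ρ ε (u, (τ : ℂ) * w) =
            Phi ψ φ ν ρ ε (u, w) + (((88 * ε * (1 - τ) : ℝ) : ℂ) * w) • ν := by
          rw [hPhi, hPhi, add_assoc, ← add_smul]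
          congr 2
          push_cast
          ring
        rw [h2]
        have h3 : 0 ≤ 88 * ε * (1 - τ) := by
          have : 0 ≤ 1 - τ := by linarith
          positivity
        have h4 : ‖((88 * ε * (1 - τ) : ℝ) : ℂ) * w‖ = 88 * ε * (1 - τ) * ‖w‖ := by
          rw [norm_mul, Complex.norm_real, Real.norm_eq_abs, abs_of_nonneg h3]
        apply hcone _ _ (hyx u w hu hw) _ hneg.le h0
        · rw [h4, Complex.re_ofReal_mul]
          have := mul_le_mul_of_nonneg_left hc h3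
          linarith
        · rw [h4]
          have h5 : 88 * ε * (1 - τ) ≤ 88 * ε := by nlinarith
          have h6 : 88 * ε * (1 - τ) * ‖w‖ ≤ 88 * ε * 2 := by
            apply mul_le_mul h5 (by linarith) (norm_nonneg _) (by positivity)
          linarith
    · push Not at hc
      have h2 : (φ u).re ≤ 22 := (Complex.re_le_norm _).trans (hφb u hu)
      have h3 : -(1 / 100) ≤ ((τ : ℂ) * w).re := by
        rw [Complex.re_ofReal_mul]
        have h4 : -(1 / 100) ≤ w.re := by linarith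
        nlinarith
      have hre := hfi_re φ ε u ((τ : ℂ) * w)
      have h5 : ε * ((φ u).re - 88 * (1 + ((τ : ℂ) * w).re)) ≤ ε * (-65) := by
        apply mul_le_mul_of_nonneg_left _ hε.le
        linarith
      have h6 := hcb u ((τ : ℂ) * w) hu (lt_of_le_of_lt hτw hw)
      apply hgood u _ hu (lt_of_le_of_lt hτw hw)
      · rw [hre]
        linarith
      · rw [hre]
        linarith
  · -- pushing inside
    rintro ⟨u, w⟩ ⟨hu, hw⟩ hneg
    simp only at hu hw
    refine ⟨1, one_pos, ?_⟩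
    intro σ hσ0 hσ1
    show r (Phi ψ φ ν ρ ε (u, w + (σ : ℂ))) < 0
    have h2 : Phi ψ φ ν ρ ε (u, w + (σ : ℂ)) =
        Phi ψ φ ν ρ ε (u, w) + ((-(88 * ε * σ) : ℝ) : ℂ) • ν := by
      rw [hPhi, hPhi, add_assoc, ← add_smul]
      congr 2
      push_cast
      ring
    rw [h2]
    have h3 : 0 < 88 * ε * σ := by positivity
    have h4 : ‖((-(88 * ε * σ) : ℝ) : ℂ)‖ = 88 * ε * σ := by
      rw [Complex.norm_real, Real.norm_eq_abs, abs_neg, abs_of_pos h3]
    apply hcone _ _ (hyx u w hu hw) _ hneg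
    · intro h0
      rw [h0, norm_zero] at h4
      linarith
    · rw [h4, Complex.ofReal_re]
      linarith
    · rw [h4]
      have : 88 * ε * σ ≤ 88 * ε := by nlinarith
      linarith

end Pool.SMD
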